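import Pool.Agent.H83.FD.TargetsB

/-! RSX: rescaling of a cap for the class `EnX` (board `fdb_modules`). -/

set_option autoImplicit false

namespace Pool.Agent.H79.FD.RSX

open Pool.Agent.H83.G Pool.Agent.H83.FD MeasureTheory Set
open scoped ENNReal NNReal RealInnerProductSpace

variable {m : ℕ}

/-- the product of two bumps -/
private theorem bump_mul {L : ℕ} {φ φ' : E m → ℂ} (hφ : φ ∈ Bp m L) (hφ' : φ' ∈ Bp m L)
    (η' : E m) {s' : ℝ} (hs0 : 0 < s') (hs1 : s' ≤ 1) :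
    (fun u => (((2 ^ L : ℝ)⁻¹ : ℝ) : ℂ) * (φ' u * φ (s' • u + η'))) ∈ Bp m L := by
  have hcomp : ContDiff ℝ (⊤ : ℕ∞) fun u : E m => φ (s' • u + η') :=
    hφ.1.comp ((contDiff_const_smul s').add contDiff_const)
  have hmul : ContDiff ℝ (⊤ : ℕ∞) fun u : E m => φ' u * φ (s' • u + η') := hφ'.1.mul hcomp
  refine ⟨contDiff_const.mul hmul, fun x hx => ?_, fun j hj x => ?_⟩
  · simp only
    rw [hφ'.2.1 x hx, zero_mul, mul_zero]
  · have hd : ∀ i ≤ L, ∀ x, ‖iteratedFDeriv ℝ i (fun u : E m => φ (s' • u + η')) x‖ ≤ 1 := by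
      intro i hi x
      have h1 : (fun u : E m => φ (s' • u + η')) = fun u => (fun v => φ (v + η')) (s' • u) := rfl
      have h2 : ContDiff ℝ i fun v : E m => φ (v + η') :=
        (hφ.1.comp (contDiff_id.add contDiff_const)).of_le (by exact_mod_cast le_top)
      rw [h1, iteratedFDeriv_comp_const_smul s' h2]
      simp only
      rw [iteratedFDeriv_comp_add_right]
      rw [norm_smul, norm_pow, Real.norm_eq_abs, abs_of_pos hs0]
      calc s' ^ i * ‖iteratedFDeriv ℝ i φ (s' • x + η')‖ ≤ 1 * 1 := by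
            apply mul_le_mul (pow_le_one₀ hs0.le hs1) (hφ.2.2 i hi _) (norm_nonneg _) zero_le_one
        _ = 1 := one_mul 1
    have h3 : iteratedFDeriv ℝ j (fun u => (((2 ^ L : ℝ)⁻¹ : ℝ) : ℂ) *
        (φ' u * φ (s' • u + η'))) x =
        (((2 ^ L : ℝ)⁻¹ : ℝ) : ℂ) • iteratedFDeriv ℝ j (fun u => φ' u * φ (s' • u + η')) x := by
      have : (fun u => (((2 ^ L : ℝ)⁻¹ : ℝ) : ℂ) * (φ' u * φ (s' • u + η'))) =
          (((2 ^ L : ℝ)⁻¹ : ℝ) : ℂ) • fun u => (φ' u * φ (s' • u + η')) := rfl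
      rw [this]
      exact iteratedFDeriv_const_smul_apply (hmul.of_le (by exact_mod_cast le_top)).contDiffAt
    rw [h3, norm_smul]
    have h4 := norm_iteratedFDeriv_mul_le (𝕜 := ℝ) (f := φ') (g := fun u => φ (s' • u + η'))
      (hφ'.1.of_le (by exact_mod_cast le_top : (j : WithTop ℕ∞) ≤ ((⊤ : ℕ∞) : WithTop ℕ∞)))
      (hcomp.of_le (by exact_mod_cast le_top : (j : WithTop ℕ∞) ≤ ((⊤ : ℕ∞) : WithTop ℕ∞)))
      x le_rfl
    have h5 : ∑ i ∈ Finset.range (j + 1), (j.choose i : ℝ) * ‖iteratedFDeriv ℝ i φ' x‖ *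
        ‖iteratedFDeriv ℝ (j - i) (fun u => φ (s' • u + η')) x‖ ≤ 2 ^ L := by
      calc _ ≤ ∑ i ∈ Finset.range (j + 1), (j.choose i : ℝ) * 1 * 1 := by
            apply Finset.sum_le_sum
            intro i hi
            have hij : i ≤ j := Nat.lt_succ_iff.1 (Finset.mem_range.1 hi)
            have a1 := hφ'.2.2 i (hij.trans hj) x
            have a2 := hd (j - i) ((Nat.sub_le _ _).trans hj) x
            gcongr
        _ = 2 ^ j := by
            simp only [mul_one]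
            rw [← Nat.cast_sum, Nat.sum_range_choose]
            push_cast
            rfl
        _ ≤ 2 ^ L := pow_le_pow_right₀ (by norm_num) hj
    have h6 : ‖((((2 ^ L : ℝ)⁻¹ : ℝ)) : ℂ)‖ = (2 ^ L : ℝ)⁻¹ := by
      rw [Complex.norm_real, Real.norm_eq_abs, abs_of_pos (by positivity)]
    rw [h6]
    calc (2 ^ L : ℝ)⁻¹ * _ ≤ (2 ^ L : ℝ)⁻¹ * 2 ^ L := by
          apply mul_le_mul_of_nonneg_left (h4.trans h5) (by positivity)
      _ = 1 := inv_mul_cancel₀ (by positivity)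

private theorem TF_const_mul (c : ℂ) (G : Z m → ℂ) (z : Z m) :
    TF (fun ζ => c * G ζ) z = c * TF G z := by
  unfold TF
  rw [← integral_const_mul]
  congr 1
  ext ζ
  ring

private theorem TC_const_mul (c : ℂ) (G : Z m → ℂ) (h : TC G) : TC (fun ζ => c * G ζ) :=
  ⟨contDiff_const.mul h.1, h.2.mul_left⟩

/-- the radii of the smallest caps -/
private theorem sR_mul {R s : ℝ} (hs : 0 < s) : s * sR (R * s ^ 2) = sR R := by
  unfold sR
  rw [Real.sqrt_mul' R (by positivity), Real.sqrt_sq hs.le, mul_inv]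
  field_simp

/-- the minimum -/
private theorem min_le_min_rpow {R R' r a : ℝ} (hR' : 0 < R') (hRR : R' ≤ R) (hr : 0 < r)
    (hrR : r ≤ R') : min (R ^ a) (r ^ a) ≤ min (R' ^ a) (r ^ a) := by
  rcases le_total a 0 with ha | ha
  · exact min_le_min_right _ (Real.rpow_le_rpow_of_nonpos hR' hRR ha)
  · have h1 : r ^ a ≤ R' ^ a := Real.rpow_le_rpow hr.le hrR ha
    rw [min_eq_right h1]
    exact min_le_right _ _

theorem pf_RSX (hLOA : T_LOA) (hLOI : T_LOI) (hSCL : T_SCL) (hCPS : T_CPS) (hIVZ : T_IVZ) :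
    T_RSX := by
  intro m L α
  refine ⟨2 ^ L, one_le_pow₀ (by norm_num), ?_⟩
  intro R A G G₁ φ η s hφ hA hs hs1 hRs hG hquart hEn hG₁ hTF
  obtain ⟨hA1, hA2, hA3, hA4, hA5, hA6⟩ := hLOA m
  obtain ⟨hI1, hI2, hI3, hI4, hI5, hI6⟩ := hLOI m η s hs
  have hs2 : 0 < s ^ 2 := by positivity
  have hR : 0 < R := by
    by_contra hcon
    push Not at hcon
    nlinarith
  -- the function
  let H : Z m → ℂ := fun ζ => cp φ η s ζ * G ζ
  have hH : TC H := hCPS m φ η s G hφ.1 hs hG hquart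
  obtain ⟨hH1, hH2⟩ := hSCL m η s H hs hH
  let c : ℂ := ((s ^ (m + 2) : ℝ) : ℂ)
  let G' : Z m → ℂ := fun ζ => c * H (Ld η s ζ)
  have hG' : TC G' := TC_const_mul c _ hH1
  have hsurj : ∀ z' : Z m, ∃ z : Z m, Lo η s z = z' := by
    intro z'
    refine ⟨Lo (-(s⁻¹ • η)) s⁻¹ z', ?_⟩
    rw [(hA4 _ _ _ _ _).1, neg_add_cancel, inv_mul_cancel₀ hs.ne']
    exact (hA5 z').1
  have hTFe : TF G₁ = TF G' := by
    funext z'
    obtain ⟨z, rfl⟩ := hsurj z'
    rw [hTF z]
    change TF H z = TF (fun ζ => c * H (Ld η s ζ)) (Lo η s z)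
    rw [TF_const_mul, hH2 z]
  have hGe : G₁ = G' := by
    funext ζ
    rw [← (hIVZ m G₁ hG₁).2 ζ, ← (hIVZ m G' hG').2 ζ, hTFe]
  rw [hGe]
  have hcp : ∀ ζ : Z m, ζ.1 ≠ 0 → ∀ (Φ : E m → ℂ) (η' : E m) (s' : ℝ),
      cp Φ (η + s • η') (s * s') (Ld η s ζ) = Φ (s'⁻¹ • (ζ.1⁻¹ • ζ.2.1 - η')) := by
    intro ζ hζ Φ η' s'
    obtain ⟨h1, h2, -⟩ := hA6 η s ζ hζ
    unfold cp
    congr 1
    have h3 : (Ld η s ζ).1⁻¹ • (Ld η s ζ).2.1 - (η + s • η') =
        s • (ζ.1⁻¹ • ζ.2.1 - η') := by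
      rw [← sub_sub, h2, smul_sub]
    rw [h3, smul_smul, mul_inv, mul_right_comm, inv_mul_cancel₀ hs.ne', one_mul]
  have hcp0 : ∀ ζ : Z m, ζ.1 ≠ 0 → ∀ (Φ : E m → ℂ),
      cp Φ η s (Ld η s ζ) = Φ (ζ.1⁻¹ • ζ.2.1) := by
    intro ζ hζ Φ
    have := hcp ζ hζ Φ 0 1
    rw [smul_zero, add_zero, mul_one, inv_one, one_smul, sub_zero] at this
    exact this
  -- the class inequality
  intro I φ' η' s' r z₀' hφ' hsep hxη hss' hs'1 hr hrR
  set R' : ℝ := R * s ^ 2 with hR'def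
  have hR'0 : 0 < R' := by linarith
  have hR'R : R' ≤ R := by
    rw [hR'def]
    have : s ^ 2 ≤ 1 := pow_le_one₀ hs.le hs1
    nlinarith
  have hsR' : 0 < sR R' := by
    unfold sR
    have : 0 < Real.sqrt R' := Real.sqrt_pos.2 hR'0
    positivity
  have hsR'1 : sR R' ≤ 1 := by
    unfold sR
    exact inv_le_one_of_one_le₀ (Real.one_le_sqrt.2 hRs)
  have hsRR : s * sR R' = sR R := sR_mul hs
  have hs'0 : 0 < s' := lt_of_lt_of_le hsR' hss'
  have hss : 0 < s * s' := by positivity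
  -- the center
  obtain ⟨z₀, hz₀⟩ : ∃ z₀ : Z m, Lo η s z₀ = z₀' := hsurj z₀'
  have hset : ∀ z, Lo η s z ∈ VX η' s' r R' z₀' ↔
      z ∈ VX (η + s • η') (s * s') r R z₀ := by
    intro z
    unfold VX
    rw [mem_ofPred_eq, mem_ofPred_eq, ← hz₀, ← (hA1 η s z z₀).2.1, (hA4 _ _ _ _ _).1]
    have : R' * s' ^ 2 = R * (s * s') ^ 2 := by rw [hR'def]; ring
    rw [this]
  -- the caps
  let Φ₁ : E m → E m → ℂ := fun x u =>
    (((2 ^ L : ℝ)⁻¹ : ℝ) : ℂ) * (φ' x u * φ (sR R' • u + x))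
  have hΦ₁ : ∀ x ∈ I, Φ₁ x ∈ Bp m L := fun x hx => bump_mul hφ (hφ' x hx) x hsR' hsR'1
  -- the multipliers
  have hmult : ∀ x ∈ I, ∀ z, TP (φ' x) x (sR R') G' (Lo η s z) =
      ((2 ^ L : ℝ) : ℂ) * TP (Φ₁ x) (η + s • x) (sR R) G z := by
    intro x hx z
    let Φ : E m → ℂ := fun u => φ' x u * φ (sR R' • u + x)
    have hΦs : ContDiff ℝ (⊤ : ℕ∞) Φ :=
      (hφ' x hx).1.mul (hφ.1.comp ((contDiff_const_smul (sR R')).add contDiff_const))
    have hss2 : 0 < s * sR R' := by positivity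
    let H₂ : Z m → ℂ := fun ζ => cp Φ (η + s • x) (s * sR R') ζ * G ζ
    have hH₂ : TC H₂ := hCPS m Φ _ _ G hΦs hss2 hG hquart
    obtain ⟨-, hS2⟩ := hSCL m η s H₂ hs hH₂
    have h1 : (fun ζ => cp (φ' x) x (sR R') ζ * G' ζ) = fun ζ => c * H₂ (Ld η s ζ) := by
      funext ζ
      change cp (φ' x) x (sR R') ζ * (c * (cp φ η s (Ld η s ζ) * G (Ld η s ζ))) =
        c * (cp Φ (η + s • x) (s * sR R') (Ld η s ζ) * G (Ld η s ζ))
      by_cases hz : G (Ld η s ζ) = 0
      · rw [hz]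
        ring
      · have h2 := hquart _ hz
        have h3 : (Ld η s ζ).1 = ζ.1 := rfl
        rw [h3] at h2
        have h4 : ζ.1 ≠ 0 := by linarith
        rw [hcp ζ h4, hcp0 ζ h4]
        have h5 : cp (φ' x) x (sR R') ζ = φ' x ((sR R')⁻¹ • (ζ.1⁻¹ • ζ.2.1 - x)) := rfl
        have h6 : Φ ((sR R')⁻¹ • (ζ.1⁻¹ • ζ.2.1 - x)) =
            φ' x ((sR R')⁻¹ • (ζ.1⁻¹ • ζ.2.1 - x)) * φ (ζ.1⁻¹ • ζ.2.1) := by
          change φ' x _ * φ (sR R' • ((sR R')⁻¹ • (ζ.1⁻¹ • ζ.2.1 - x)) + x) = _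
          rw [smul_smul, mul_inv_cancel₀ hsR'.ne', one_smul, sub_add_cancel]
        rw [h5, h6]
        ring
    have h2 : H₂ = fun ζ => ((2 ^ L : ℝ) : ℂ) *
        (cp (Φ₁ x) (η + s • x) (s * sR R') ζ * G ζ) := by
      funext ζ
      change φ' x _ * φ _ * G ζ = ((2 ^ L : ℝ) : ℂ) *
        ((((2 ^ L : ℝ)⁻¹ : ℝ) : ℂ) * (φ' x _ * φ _) * G ζ)
      have h3 : ((2 ^ L : ℝ) : ℂ) * (((2 ^ L : ℝ)⁻¹ : ℝ) : ℂ) = 1 := by
        rw [← Complex.ofReal_mul, mul_inv_cancel₀ (by positivity), Complex.ofReal_one]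
      linear_combination (-(φ' x _ * φ _ * G ζ)) * h3
    unfold TP
    rw [h1, TF_const_mul, ← hS2 z, h2, TF_const_mul, hsRR]
  -- change of variables
  have hmeas : MeasurableSet (VX η' s' r R' z₀') := by
    have hc : Continuous (Lo η' s' : Z m → Z m) := (hLOI m η' s' hs'0).2.2.2.2.1.continuous
    have hc2 : Continuous fun z : Z m => Lo η' s' (z - z₀') :=
      hc.comp (continuous_id.sub continuous_const)
    exact ((isClosed_le hc2.fst.abs continuous_const).inter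
      (isClosed_le hc2.snd.norm continuous_const)).measurableSet
  have hmeas2 : MeasurableSet (VX (η + s • η') (s * s') r R z₀) := by
    have hc : Continuous (Lo (η + s • η') (s * s') : Z m → Z m) :=
      (hLOI m _ _ hss).2.2.2.2.1.continuous
    have hc2 : Continuous fun z : Z m => Lo (η + s • η') (s * s') (z - z₀) :=
      hc.comp (continuous_id.sub continuous_const)
    exact ((isClosed_le hc2.fst.abs continuous_const).inter
      (isClosed_le hc2.snd.norm continuous_const)).measurableSet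
  have hcv : ∀ x ∈ I, ∫⁻ z in VX η' s' r R' z₀', ‖TP (φ' x) x (sR R') G' z‖ₑ ^ 2 =
      ENNReal.ofReal (s ^ (m + 2)) * (ENNReal.ofReal ((2 ^ L) ^ 2) *
        ∫⁻ z in VX (η + s • η') (s * s') r R z₀,
          ‖TP (Φ₁ x) (η + s • x) (sR R) G z‖ₑ ^ 2) := by
    intro x hx
    rw [← lintegral_indicator hmeas, ← lintegral_indicator hmeas2]
    have h1 := hI1 ((VX η' s' r R' z₀').indicator fun z => ‖TP (φ' x) x (sR R') G' z‖ₑ ^ 2)
    have h2 : ENNReal.ofReal (s ^ (m + 2)) * ENNReal.ofReal ((s⁻¹) ^ (m + 2)) = 1 := by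
      rw [← ENNReal.ofReal_mul (by positivity), ← mul_pow, mul_inv_cancel₀ hs.ne', one_pow,
        ENNReal.ofReal_one]
    have h3 : ∫⁻ z, (VX η' s' r R' z₀').indicator
          (fun z => ‖TP (φ' x) x (sR R') G' z‖ₑ ^ 2) z =
        ENNReal.ofReal (s ^ (m + 2)) * ∫⁻ z, (VX η' s' r R' z₀').indicator
          (fun z => ‖TP (φ' x) x (sR R') G' z‖ₑ ^ 2) (Lo η s z) := by
      rw [h1, ← mul_assoc, h2, one_mul]
    rw [h3]
    congr 1
    rw [← lintegral_const_mul' _ _ ENNReal.ofReal_ne_top]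
    congr 1
    funext z
    by_cases hz : z ∈ VX (η + s • η') (s * s') r R z₀
    · rw [indicator_of_mem ((hset z).2 hz), indicator_of_mem hz, hmult x hx z, enorm_mul,
        mul_pow]
      congr 1
      rw [← ofReal_norm, ← ENNReal.ofReal_pow (norm_nonneg _), Complex.norm_real,
        Real.norm_eq_abs, abs_of_pos (by positivity)]
    · rw [indicator_of_notMem (fun h => hz ((hset z).1 h)), indicator_of_notMem hz, mul_zero]
  -- the family
  have hinj : Function.Injective fun x : E m => η + s • x := by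
    intro x y hxy
    have h1 : s • x = s • y := add_left_cancel hxy
    exact smul_right_injective _ hs.ne' h1
  have hback : ∀ x : E m, s⁻¹ • (η + s • x - η) = x := by
    intro x
    rw [add_sub_cancel_left, smul_smul, inv_mul_cancel₀ hs.ne', one_smul]
  classical
  have hcls := hEn (I.image fun x => η + s • x) (fun y => Φ₁ (s⁻¹ • (y - η)))
    (η + s • η') (s * s') r z₀
    (by
      intro y hy
      obtain ⟨x, hx, rfl⟩ := Finset.mem_image.1 hy
      rw [hback]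
      exact hΦ₁ x hx)
    (by
      intro y hy y' hy' hne
      obtain ⟨x, hx, rfl⟩ := Finset.mem_image.1 hy
      obtain ⟨x', hx', rfl⟩ := Finset.mem_image.1 hy'
      have hne' : x ≠ x' := fun h => hne (by rw [h])
      have h1 := hsep x hx x' hx' hne'
      have h2 : ‖(η + s • x) - (η + s • x')‖ = s * ‖x - x'‖ := by
        rw [add_sub_add_left_eq_sub, ← smul_sub, norm_smul, Real.norm_eq_abs, abs_of_pos hs]
      rw [h2, ← hsRR]
      nlinarith [mul_le_mul_of_nonneg_left h1 hs.le])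
    (by
      intro y hy
      obtain ⟨x, hx, rfl⟩ := Finset.mem_image.1 hy
      have h2 : ‖(η + s • x) - (η + s • η')‖ = s * ‖x - η'‖ := by
        rw [add_sub_add_left_eq_sub, ← smul_sub, norm_smul, Real.norm_eq_abs, abs_of_pos hs]
      rw [h2]
      exact mul_le_mul_of_nonneg_left (hxη x hx) hs.le)
    (by
      rw [← hsRR]
      exact mul_le_mul_of_nonneg_left hss' hs.le)
    (by nlinarith)
    (by
      have : R * (s * s') ^ 2 = R' * s' ^ 2 := by rw [hR'def]; ring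
      rw [this]
      exact hr)
    (by
      have h1 : R' * s' ≤ R * (s * s') := by
        rw [hR'def]
        have : R * (s * s') - R * s ^ 2 * s' = R * s * s' * (1 - s) := by ring
        have h2 : 0 ≤ R * s * s' * (1 - s) := by
          have : 0 ≤ 1 - s := by linarith
          positivity
        linarith
      linarith)
  rw [Finset.sum_image (fun x _ y _ h => hinj h)] at hcls
  have hrp : 0 < r := by
    have : 0 < R' * s' ^ 2 := by positivity
    linarith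
  have hrR' : r ≤ R' := by
    have : R' * s' ≤ R' := by nlinarith
    linarith
  calc ∑ x ∈ I, ∫⁻ z in VX η' s' r R' z₀', ‖TP (φ' x) x (sR R') G' z‖ₑ ^ 2
      = ENNReal.ofReal (s ^ (m + 2)) * (ENNReal.ofReal ((2 ^ L) ^ 2) *
        ∑ x ∈ I, ∫⁻ z in VX (η + s • η') (s * s') r R z₀,
          ‖TP (Φ₁ x) (η + s • x) (sR R) G z‖ₑ ^ 2) := by
        rw [Finset.mul_sum, Finset.mul_sum]
        exact Finset.sum_congr rfl hcv
    _ ≤ ENNReal.ofReal (s ^ (m + 2)) * (ENNReal.ofReal ((2 ^ L) ^ 2) *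
        ENNReal.ofReal (A ^ 2 * (R * (R * (s * s')) ^ m *
          min (R ^ (α - m)) (r ^ (α - m))))) := by
        gcongr
        refine le_trans (le_of_eq ?_) hcls
        refine Finset.sum_congr rfl fun x hx => ?_
        rw [hback]
    _ = ENNReal.ofReal ((2 ^ L * A) ^ 2 * (R' * (R' * s') ^ m *
          min (R ^ (α - m)) (r ^ (α - m)))) := by
        rw [← ENNReal.ofReal_mul (by positivity), ← ENNReal.ofReal_mul (by positivity)]
        congr 1
        have h1 : s ^ m * (R * (s * s')) ^ m = (R' * s') ^ m := by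
          rw [← mul_pow]
          congr 1
          rw [hR'def]
          ring
        have h2 : s ^ (m + 2) * (R * (R * (s * s')) ^ m) = R' * (R' * s') ^ m := by
          rw [← h1, hR'def]
          ring
        linear_combination ((2 ^ L) ^ 2 * A ^ 2 * min (R ^ (α - m)) (r ^ (α - m))) * h2
    _ ≤ ENNReal.ofReal ((2 ^ L * A) ^ 2 * (R' * (R' * s') ^ m *
          min (R' ^ (α - m)) (r ^ (α - m)))) := by
        apply ENNReal.ofReal_le_ofReal
        have := min_le_min_rpow (a := α - m) hR'0 hR'R hrp hrR'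
        gcongr

end Pool.Agent.H79.FD.RSX
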